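import Pool.Agent.X140.AD.Stage
import Pool.Agent.H176.DT.C13
import Pool.Agent.TH188.QS.LU
import Pool.Agent.TH188.QS.Cls
import Pool.Agent.TH188.QS.Bases

/-!
MP_1a953e_ag: semistable uniformization, in all dimensions, of the points of adic spaces of
arbitrary rank which are composed of discrete and divergent valuations, with defect.

Let `F` be a (complete) discretely valued field of characteristic zero with the ring of integers `O`
and the uniformizer `π`. Let `X` be an integral projective `F`-scheme of any dimension with the
function field `K`, with the projective flat model `𝒳` over `O`, and let `x` be a point of the adic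
space of `X` which lies over the generic point of `X`: a valuation ring `V` of `K` of arbitrary
rank, `V ∩ F = O`, which is contained in the unit ball of its generization of rank one, a
multiplicative norm `v` on `K` which extends the one of `F`. Suppose that `V` is composed of
valuations each of which is discrete or has divergent sequences of quadratic transforms (for
example, `V` is discrete of rank `n`), and that `|π|` is not a proper power in the value group of
`v`. There is no condition on the extension `K / F` and its defect, and on the residue fields.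

Then there is a number `N₀` such that, for every `N ≥ N₀`, for `l = F(ϖ)`, `ϖ ^ N = π`, with the
ring of integers `O[ϖ]`, and for every preimage `x'` of `x` in the adic space of `X_l`, a blowing-up
of `𝒳 ⊗ O[ϖ]` in a closed subscheme of the special fibre, that is, an admissible blowing-up, is
semistable at the centre of `x'`: its local ring is regular, and `ϖ` is a product of distinct
elements of a regular system of parameters. In particular, `x` is uniformizable.

The case of rank one (with a weaker condition on `|π|`) is MP_1a953e_ag.DivergentPoints in the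
starting files. NEW: arbitrary rank, by the theorem of Pool/Agent/X140/AD (see
MP_1a953e_ag.AdicPoints, where the valuations have no defect) and by the theorem of
Pool/Agent/TH188/QS on composites of divergent valuations.
-/

set_option autoImplicit false

universe u

namespace Pool.Agent.Results.MP_1a953e_ag.AdicDivergentPoints

open IsLocalRing Pool.Agent.W418.LU2 Pool.Agent.TH188.QS

/-- The local ring of `Spec B` at the centre of the valuation ring `V`: the fractions of elements
of `B` whose denominators are units of `V`. -/
def centreRing {F : Type u} [Field F] (V : ValuationSubring F) (B : Subring F) : Subring F where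
  carrier := {x | ∃ a ∈ B, ∃ b ∈ B, b ≠ 0 ∧ b⁻¹ ∈ V ∧ x = a * b⁻¹}
  mul_mem' := (lo V.toSubring B).mul_mem'
  one_mem' := (lo V.toSubring B).one_mem'
  add_mem' := (lo V.toSubring B).add_mem'
  zero_mem' := (lo V.toSubring B).zero_mem'
  neg_mem' := (lo V.toSubring B).neg_mem'

/-- The quadratic transform of `Q` along `V`: the local ring, at the centre of `V`, of the
blowing-up of `Spec Q` in the centre of `V`. -/
def quadraticTransform {K : Type u} [Field K] (V : ValuationSubring K) (Q : Subring K) :
    Subring K :=
  centreRing V (Subring.closure ((Q : Set K) ∪ {t | ∃ y ∈ Q, ∃ z ∈ Q,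
    V.valuation y < 1 ∧ z ≠ 0 ∧ V.valuation z < 1 ∧
      (∀ w ∈ Q, V.valuation w < 1 → V.valuation w ≤ V.valuation z) ∧ t = y / z}))

/-- The sequence of quadratic transforms of the local ring of `Spec A` at the centre of `V`. -/
def quadraticSequence {K : Type u} [Field K] (V : ValuationSubring K) (A : Subring K) :
    ℕ → Subring K
  | 0 => centreRing V A
  | n + 1 => quadraticTransform V (quadraticSequence V A n)

/-- The values of the maximal ideals in the sequence of quadratic transforms have an infinite sum:
every value of `V` is exceeded by the value of all products `z 0 * ... * z (n - 1)` of elements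
`z i` of the maximal ideals of the rings of the sequence, for some `n`. -/
def IsDivergent {K : Type u} [Field K] (V : ValuationSubring K) (A : Subring K) : Prop :=
  ∀ x : K, x ≠ 0 → ∃ n : ℕ, ∀ z : ℕ → K,
    (∀ i < n, z i ∈ quadraticSequence V A i ∧ z i ≠ 0 ∧ V.valuation (z i) < 1) →
      V.valuation (∏ i ∈ Finset.range n, z i) < V.valuation x

/-- The image of the `R`-algebra generated by `T`. -/
def adjoined {R K : Type u} [CommRing R] [Field K] (ρ : R →+* K) (T : Set K) : Subring K :=
  Subring.closure ((ρ.range : Set K) ∪ T)

/-- `V` is the composite of the valuation ring `V₁` and the valuation ring `W` of its residue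
field. -/
def IsComposite {K : Type u} [Field K] (V V₁ : ValuationSubring K)
    (W : ValuationSubring (ResidueField V₁)) : Prop :=
  ∀ z : K, z ∈ V ↔ ∃ hz : z ∈ V₁, residue V₁ ⟨z, hz⟩ ∈ W

/-- `V` is the composite of `n` valuations each of which is discrete of rank one, or is divergent
on all `R`-algebras of finite type. -/
def IsStepwiseDivergent (R : Type u) [CommRing R] : ℕ → ∀ {K : Type u} [Field K], (R →+* K) →
    ValuationSubring K → Prop
  | 0, _, _, _, V => V = ⊤
  | n + 1, K, _, ρ, V => ∃ (V₁ : ValuationSubring K) (W : ValuationSubring (ResidueField V₁))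
      (hρ : ∀ a, ρ a ∈ V₁.toSubring), IsComposite V V₁ W ∧
      (IsDiscreteValuationRing V₁ ∨
        ∀ T : Set K, T.Finite → adjoined ρ T ≤ V₁.toSubring → IsDivergent V₁ (adjoined ρ T)) ∧
      IsStepwiseDivergent R n ((residue V₁).comp (ρ.codRestrict V₁.toSubring hρ)) W

/-- The subring `P` of the field `K` is a regular local ring, and `ϖ` is the product of some (at
least one) of the elements of a regular system of parameters. (If `ϖ` is a uniformizer of a discrete
valuation ring `O` with perfect residue field and `P` is the local ring of an integral flat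
`O`-scheme of finite type at a point of the special fibre, then these elements `t i` define a
morphism from a neighbourhood of this point to `Spec O[t 0, ..., t d] / (t 0 * ... * t d - ϖ)` which
is flat with regular, hence smooth, fibre through this point; so it is smooth there.) -/
def IsSemistable {K : Type u} [Field K] (P : Subring K) (ϖ : K) : Prop :=
  ∃ (_ : IsRegularLocalRing P) (n : ℕ) (x : Fin n → P) (S : Finset (Fin n)),
    Ideal.span (Set.range x) = IsLocalRing.maximalIdeal P ∧ ringKrullDim P = n ∧
      S.Nonempty ∧ ϖ = ∏ i ∈ S, (x i : K)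

/-- The coordinate ring `O[v / w : v ∈ W]` of the chart `w ≠ 0` of the projective `O`-scheme
`Proj O[W]` with the function field `K` and the homogeneous coordinates `W ⊆ K`. -/
def chart {K : Type u} [Field K] (O : Subring K) (W : Set K) (w : K) : Subring K :=
  Subring.closure ((O : Set K) ∪ {z | ∃ v ∈ W, z = v / w})

/-- `Y` is a finite set of forms of some degree `d` over `O` in the homogeneous coordinates `W`,
and `p ^ n` times any form of degree `d` is a linear combination of the forms in `Y`, for some `n`.
So the closed subscheme of `Proj O[W]` defined by the forms in `Y` is contained in the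
fibre over `p`. -/
def IsVerticalCentre {K : Type u} [Field K] (O : Subring K) (p : K) (W Y : Set K) : Prop :=
  Y.Finite ∧ ∃ d n : ℕ, Y ⊆ ((Submodule.span O W) ^ d : Submodule O K) ∧
    ∀ z ∈ (Submodule.span O W) ^ d, p ^ n * z ∈ Submodule.span O Y

/-- The homogeneous coordinates of the blowing-up of `Proj O[W]` in the closed subscheme which is
defined by the forms in `Y`. -/
def blowUpCoordinates {K : Type u} [Field K] (W Y : Set K) : Set K :=
  {z | ∃ y ∈ Y, ∃ v ∈ W, z = y * v}

/-- The projective scheme `Proj O[W]` is semistable at the centre of `V`, which lies in the chart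
`w ≠ 0`. -/
def IsSemistableAt {K : Type u} [Field K] (V : ValuationSubring K) (O : Subring K) (W : Set K)
    (ϖ : K) : Prop :=
  ∃ w ∈ W, w ≠ 0 ∧ (∀ v ∈ W, v / w ∈ V) ∧ IsSemistable (centreRing V (chart O W w)) ϖ

/-- The ring `O[ϖ]`. (If `O` is a discrete valuation ring with the uniformizer `π = ϖ ^ N`, then it
is the ring of integers of the totally ramified extension `k(ϖ)` of the field of fractions `k` of
`O`.) -/
def ramifiedRing {L K' : Type u} [Field L] [Field K'] (φ : L →+* K') (O : Subring L) (ϖ : K') :
    Subring K' :=
  Subring.closure ((O.map φ : Set K') ∪ {ϖ})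

/-- `K' = K(ϖ)` with `ϖ ^ N = π`, and `V'` is a valuation ring of `K'` over the valuation ring `V`
of `K`. -/
def IsLift {K K' : Type u} [Field K] [Field K'] [Algebra K K'] (V : ValuationSubring K) (π : K)
    (N : ℕ) (V' : ValuationSubring K') (ϖ : K') : Prop :=
  V'.comap (algebraMap K K') = V ∧ ϖ ^ N = algebraMap K K' π ∧
    ∀ z : K', z ∈ Subfield.closure (Set.range (algebraMap K K') ∪ {ϖ})

lemma quadraticSequence_eq {K : Type u} [Field K] (V : ValuationSubring K) (A : Subring K) :
    quadraticSequence V A = qseq V A := by
  funext n
  induction n with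
  | zero => rfl
  | succ n ih =>
    change quadraticTransform V (quadraticSequence V A n) = qt V.toSubring (qseq V A n)
    rw [ih, qt_val]
    rfl

lemma IsDivergent.dv {K : Type u} [Field K] {V : ValuationSubring K} {A : Subring K}
    (h : IsDivergent V A) : Dv V (qseq V A) := by
  rw [← quadraticSequence_eq]
  exact dv_of_lt h

lemma IsStepwiseDivergent.sd {R : Type u} [CommRing R] (n : ℕ) : ∀ {K : Type u} [Field K]
    (ρ : R →+* K) (V : ValuationSubring K), IsStepwiseDivergent R n ρ V → SD R n ρ V := by
  induction n with
  | zero => exact fun ρ V h => h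
  | succ n ih =>
    intro K _ ρ V h
    obtain ⟨V₁, W, hρ, hc, hd, hW⟩ := h
    exact ⟨V₁, W, hρ, hc, hd.imp_right fun h T hT hTV => (h T hT hTV).dv, ih _ _ hW⟩

/-- Let `V` be a valuation ring of arbitrary rank of a field `K` of characteristic zero, and let `v` be
a multiplicative norm on `K` whose unit ball contains `V` (the generization of rank one). Let
`O ⊆ V` be a Dedekind domain (for example, `O = F°` for a discretely valued field `F`), and let
`π ≠ 0` be an element of `O` with `|π| < 1` (for example, a uniformizer of `F`) such that `|π|` is not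
a proper power in the value group of `v`. Let `𝒳` be an integral projective `O`-scheme with function
field `K` and with the homogeneous coordinates `W`; let the chart `w ≠ 0` contain the centre of `V`.
Suppose that `V` is the composite of `n` valuations each of which is discrete of rank one or is
divergent on the `O`-algebras of finite type, or that the sequence of quadratic transforms of `𝒳`
along `V` is divergent.

Then there is `N₀` such that for all `N ≥ N₀` there are `K' = K(ϖ)`, `ϖ ^ N = π`, and valuation
rings `V'` of `K'` over `V`, and for all such `K'` and `V'` there is a closed subscheme of the fibre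
of `𝒳 ⊗ O[ϖ]` over `ϖ = 0` such that the blowing-up in this subscheme (the main component if
`K ⊗ F(ϖ)` is not a field) is semistable at the centre of `V'`. -/
theorem result {K : Type u} [Field K] [CharZero K] (V : ValuationSubring K)
    (v : Valuation K NNReal) (hVv : V ≤ v.valuationSubring)
    (O : Subring K) [IsDedekindDomain O] (hO : ∀ a ∈ O, a ∈ V)
    (π : K) (_hπ : π ∈ O) (hπ0 : π ≠ 0) (hπ1 : v π < 1)
    (hdiv : ∀ q : ℕ, q.Prime → ∀ z : K, v z ^ q ≠ v π)
    (W : Set K) (hW : W.Finite) (w : K) (hw : w ∈ W) (hw0 : w ≠ 0)
    (hwV : ∀ z ∈ W, z / w ∈ V)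
    (hWK : ∀ z : K, ∃ a ∈ chart O W w, ∃ b ∈ chart O W w, b ≠ 0 ∧ z = a * b⁻¹)
    (hV : (∃ n, IsStepwiseDivergent O n O.subtype V) ∨ IsDivergent V (chart O W w)) :
    ∃ N₀ : ℕ, ∀ N : ℕ, N₀ ≤ N →
      (∃ (K' : Type u) (_ : Field K') (_ : Algebra K K') (V' : ValuationSubring K') (ϖ : K'),
        IsLift V π N V' ϖ) ∧
      ∀ {K' : Type u} [Field K'] [Algebra K K'] (V' : ValuationSubring K') (ϖ : K'),
        IsLift V π N V' ϖ →
        ∃ Y : Set K',
          IsVerticalCentre (ramifiedRing (algebraMap K K') O ϖ) ϖ (algebraMap K K' '' W) Y ∧
          IsSemistableAt V' (ramifiedRing (algebraMap K K') O ϖ)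
            (blowUpCoordinates (algebraMap K K' '' W) Y) ϖ := by
  have hchV : chart O W w ≤ V.toSubring := by
    unfold chart
    rw [Subring.closure_le]
    rintro z (hz | ⟨y, hy, rfl⟩)
    · exact hO z hz
    · exact hwV y hy
  have hMod : Pool.Agent.H176.DT.Mod V (chart O W w) := ⟨hchV, hWK⟩
  have hOc : CharZero O := ⟨fun m n h => by
    have h1 := congrArg Subtype.val h
    push_cast at h1
    exact_mod_cast h1⟩
  have hT : ({z | ∃ y ∈ W, z = y / w} : Set K).Finite := by
    refine (hW.image fun y => y / w).subset ?_
    rintro z ⟨y, hy, rfl⟩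
    exact ⟨y, hy, rfl⟩
  have hrange : ((O.subtype.range : Subring K) : Set K) = (O : Set K) := by
    ext z
    simp
  have hch : chart O W w =
      Subring.closure (((O.subtype.range : Subring K) : Set K) ∪ {z | ∃ y ∈ W, z = y / w}) := by
    rw [hrange]
    rfl
  have hSD : (∃ n, SD O n O.subtype V) ∨ Dv V (qseq V (chart O W w)) := by
    rcases hV with ⟨n, hn⟩ | hV
    · exact Or.inl ⟨n, hn.sd⟩
    · exact Or.inr hV.dv
  obtain ⟨hGP, hN⟩ := main_sd hj_dedekind O.subtype hT hchV hch.ge
    (fun b hb => ⟨b, by rw [← hch]; exact hb, 1, Subring.one_mem _, one_ne_zero,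
      by rw [inv_one]; exact Subring.one_mem _, by rw [inv_one, mul_one]⟩) hSD
  have h2 : Pool.Agent.H176.DT.SU V (chart O W w) :=
    Pool.Agent.H176.DT.p_base _ _ hMod (hGP.logUnif hchV)
  obtain ⟨N₀, h3⟩ := Pool.Agent.X140.AD.ad_main V v hVv O hO hW hw hw0 hwV hMod h2
    π hπ0 hπ1 hdiv
  refine ⟨N₀ + 1, fun N hN' => ⟨Pool.Agent.H176.DT.exists_root _ _ (by omega), ?_⟩⟩
  have hN : N₀ ≤ N := by omega
  rintro K' _ _ V' ϖ ⟨hV', hϖ, hgen⟩
  obtain ⟨Y, d', n', h4, h5, h6, w', h7, h8, h9, P, h10, h11⟩ :=
    h3 N hN (by omega) V' ϖ hV' hϖ hgen
  have h12 : ramifiedRing (algebraMap K K') O ϖ = Pool.Agent.H176.DT.Orm O ϖ := rfl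
  rw [h12]
  refine ⟨Y, ⟨h4, d', n', h5, h6⟩, w', h7, h8, h9, ?_⟩
  have h13 : centreRing V' (chart (Pool.Agent.H176.DT.Orm O ϖ)
      (blowUpCoordinates (algebraMap K K' '' W) Y) w') = P := h10
  rw [h13]
  exact h11

end Pool.Agent.Results.MP_1a953e_ag.AdicDivergentPoints
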