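import Pool.Agent.X140.CP.Base
import Pool.Agent.H176.DT.C13
import Pool.Agent.H176.DT.H8
import Pool.Agent.H176.DT.H12
import Pool.Agent.H176.DT.H13

/-!
MP_1a953e_ag: semistable uniformization, in all dimensions, of product points (with defect), over
discretely valued ground fields of positive characteristic.

Let `O` be a discrete valuation ring which contains a field `k`, let `π` be its uniformizer and let
`F` be its field of fractions; for example, `O = k[[π]]` and `F = k((π))`, as for every complete
discretely valued field of characteristic `p`. Let `X` be an integral projective `F`-scheme with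
the function field `K`, with the projective flat model `𝒳` over `O`, and let `v` be a point of the
Berkovich analytification of `X` which lies over the generic point of `X`, that is, a multiplicative
norm `v` on `K` which extends the one of `F`. Suppose that `K` is reached from `O` by the following
steps; they lead from pairs `(R, L)` of a noetherian ring `R` over `k` and a field `L` over `R` to
such pairs.

(1) `L` is the field of fractions of an `R`-algebra `A` of finite type in the unit ball of `v`, and
`A` is a Dedekind ring (for example, `R = O` and `L = F`) or the restriction of `v` is log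
uniformizable on `Spec A` (for example, `R = O` and `L` is the function field of a curve or surface
over `F`, or `R = k` and `L` is the function field of a `k`-variety of dimension at most `3`, by
Cossart and Piltant).
(2) `R = k`, `L` is finitely generated over `k`, and the restriction of `v` to `L` is discrete.
(3) Towers of extensions `L ⊂ L(t)`, `t` transcendental, such that the value of every polynomial in
`t` is determined by a defectless key polynomial, and of finite extensions without defect.
(4) NEW: from `(R, L₁)` and `(k, L₂)` to `(R, L₁ L₂)`, if `L₁` and `L₂` are linearly disjoint over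
`k` and `v` is the tensor product of its restrictions: every element `z` of the ring generated by
`L₁` and `L₂` is a sum of products `a j * b j`, `a j ∈ L₁`, `b j ∈ L₂`, with `v (a j * b j) ≤ v z`.

Suppose also that `|π|` is not a `p`-th power in the value group of `v`. Then there are numbers `d`,
prime to `p`, and `N₀` such that, for every `N ≥ N₀` divisible by `d` (for example, prime to `p`),
for `l = F(ϖ)`, `ϖ ^ N = π`, with the ring of integers `O[ϖ]`, and for every preimage `v'` of `v` in
the analytification of `X_l`, a blowing-up of `𝒳 ⊗ O[ϖ]` in a closed subscheme of the special fibre,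
that is, an admissible blowing-up, is semistable at the specialization of `v'`: its local ring is
regular, and `ϖ` is a product of distinct elements of a regular system of parameters. In particular,
`v` is uniformizable, by a tamely ramified extension `l / F`.

For example, let `k` be algebraically closed, let `x₁` be a point of the analytification of a curve
or of a surface `X₁` over `F`, and let `x₂, ..., x_m` be points of the analytifications of
`k`-varieties `X₂, ..., X_m` of dimension at most `3` over the trivially valued field `k` (all of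
them over the generic points). The tensor product of their norms is multiplicative, since the
points of analytic spaces over algebraically closed fields are universal (Poineau), and it defines
the point `x₁ * ... * x_m` of the analytification of `X₁ × ... × X_m`. It satisfies (4), since the
norms of finite dimensional vector spaces over trivially valued fields have orthogonal bases. Here
the `x i` are arbitrary, for example, points with defect. (The theorem can also be applied over a
finite extension `F' / F`: it suffices that some preimage of `v` in the analytification of `X ⊗ F'`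
satisfies the conditions over `F'`.)

The proof: by Pool/Agent/X140/CP (see MP_5b7a2c_ag.CompositaAndTowers) every finite set of elements
of `K` is given by monomials times units on some blowing-up of `𝒳`, locally at the centre of `v`;
then the theorem of the starting library Pool/Agent/H176/DT is applied, as in
MP_1a953e_ag.DefectlessPoints.

helper140
-/

set_option autoImplicit false

universe u

namespace Pool.Agent.Results.MP_1a953e_ag.CompositaPoints

open IsLocalRing Pool.Agent.W418.LU2

/-- The local ring of `Spec B` at the centre of the valuation ring `V`: the fractions of elements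
of `B` whose denominators are units of `V`. -/
def centreRing {F : Type u} [Field F] (V : ValuationSubring F) (B : Subring F) : Subring F where
  carrier := {x | ∃ a ∈ B, ∃ b ∈ B, b ≠ 0 ∧ b⁻¹ ∈ V ∧ x = a * b⁻¹}
  mul_mem' := (lo V.toSubring B).mul_mem'
  one_mem' := (lo V.toSubring B).one_mem'
  add_mem' := (lo V.toSubring B).add_mem'
  zero_mem' := (lo V.toSubring B).zero_mem'
  neg_mem' := (lo V.toSubring B).neg_mem'

/-- The chart `A[I / f]` of the blowing-up of `Spec A` in the ideal `I`. -/
def blowUpChart {F : Type u} [Field F] (A : Subring F) (I : Ideal A) (f : A) : Subring F :=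
  Subring.closure ((A : Set F) ∪ {z | ∃ a ∈ I, z = (a : F) / (f : F)})

/-- `P` is a regular local ring and the zero set of `J` is a divisor with strict normal
crossings: the radical of `J` is generated by the product of some of the elements of a regular
system of parameters. -/
def RegularPair (P : Type u) [CommRing P] (J : Ideal P) : Prop :=
  ∃ (_ : IsRegularLocalRing P) (n : ℕ) (x : Fin n → P) (s : Finset (Fin n)),
    Ideal.span (Set.range x) = IsLocalRing.maximalIdeal P ∧ ringKrullDim P = n ∧
      J.radical = Ideal.span {∏ i ∈ s, x i}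

/-- The blowing-up of `X = Spec A` in `V(I)` is a log desingularization of `(X, V(D))` along the
valuation ring `V`. Here `f ∈ I` generates `I V`, the centre of the lift of the valuation lies in
the chart `Spec A[I / f]`, and the ideal `D I` defines the preimage of `V(D) ∪ V(I)`. -/
def IsLogDesingularization {F : Type u} [Field F] (V : ValuationSubring F) (A : Subring F)
    (D I : Ideal A) : Prop :=
  ∃ f ∈ I, f ≠ 0 ∧ (∀ a ∈ I, (a : F) / (f : F) ∈ V) ∧
    RegularPair (centreRing V (blowUpChart A I f))
      (Ideal.span {z | ∃ a ∈ D * I, (z : F) = (a : F)})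

/-- The valuation ring `V` is log uniformizable on `Spec A`. (The blowings-up in the ideals
`I₀ * I₁` are cofinal: the blowing-up in `I₀ * I₁` factors through the blowing-up in `I₀`.) -/
def IsLogUniformizable {F : Type u} [Field F] (V : ValuationSubring F) (A : Subring F) : Prop :=
  ∀ D I₀ : Ideal A, D ≠ ⊥ → I₀ ≠ ⊥ →
    ∃ I₁ : Ideal A, I₁ ≠ ⊥ ∧ IsLogDesingularization V A D (I₀ * I₁)

/-- The subring `P` of the field `K` is a regular local ring, and `ϖ` is the product of some (at
least one) of the elements of a regular system of parameters. (If `ϖ` is a uniformizer of a discrete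
valuation ring `O` with perfect residue field and `P` is the local ring of an integral flat
`O`-scheme of finite type at a point of the special fibre, then these elements `t i` define a
morphism from a neighbourhood of this point to `Spec O[t 0, ..., t d] / (t 0 * ... * t d - ϖ)` which
is flat with regular, hence smooth, fibre through this point; so it is smooth there.) -/
def IsSemistable {K : Type u} [Field K] (P : Subring K) (ϖ : K) : Prop :=
  ∃ (_ : IsRegularLocalRing P) (n : ℕ) (x : Fin n → P) (S : Finset (Fin n)),
    Ideal.span (Set.range x) = IsLocalRing.maximalIdeal P ∧ ringKrullDim P = n ∧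
      S.Nonempty ∧ ϖ = ∏ i ∈ S, (x i : K)

/-- The coordinate ring `O[v / w : v ∈ W]` of the chart `w ≠ 0` of the projective `O`-scheme
`Proj O[W]` with the function field `K` and the homogeneous coordinates `W ⊆ K`. -/
def chart {K : Type u} [Field K] (O : Subring K) (W : Set K) (w : K) : Subring K :=
  Subring.closure ((O : Set K) ∪ {z | ∃ v ∈ W, z = v / w})

/-- `Y` is a finite set of forms of some degree `d` over `O` in the homogeneous coordinates `W`,
and `p ^ n` times any form of degree `d` is a linear combination of the forms in `Y`, for some `n`.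
So the closed subscheme of `Proj O[W]` defined by the forms in `Y` is contained in the
fibre over `p`. -/
def IsVerticalCentre {K : Type u} [Field K] (O : Subring K) (p : K) (W Y : Set K) : Prop :=
  Y.Finite ∧ ∃ d n : ℕ, Y ⊆ ((Submodule.span O W) ^ d : Submodule O K) ∧
    ∀ z ∈ (Submodule.span O W) ^ d, p ^ n * z ∈ Submodule.span O Y

/-- The homogeneous coordinates of the blowing-up of `Proj O[W]` in the closed subscheme which is
defined by the forms in `Y`. -/
def blowUpCoordinates {K : Type u} [Field K] (W Y : Set K) : Set K :=
  {z | ∃ y ∈ Y, ∃ v ∈ W, z = y * v}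

/-- The projective scheme `Proj O[W]` is semistable at the centre of `V`, which lies in the chart
`w ≠ 0`. -/
def IsSemistableAt {K : Type u} [Field K] (V : ValuationSubring K) (O : Subring K) (W : Set K)
    (ϖ : K) : Prop :=
  ∃ w ∈ W, w ≠ 0 ∧ (∀ v ∈ W, v / w ∈ V) ∧ IsSemistable (centreRing V (chart O W w)) ϖ

/-- The ring `O[ϖ]`. (If `O` is a discrete valuation ring with the uniformizer `π = ϖ ^ N`, then it
is the ring of integers of the totally ramified extension `k(ϖ)` of the field of fractions `k` of
`O`.) -/
def ramifiedRing {L K' : Type u} [Field L] [Field K'] (φ : L →+* K') (O : Subring L) (ϖ : K') :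
    Subring K' :=
  Subring.closure ((O.map φ : Set K') ∪ {ϖ})

section key

open Polynomial

variable {K : Type u} [Field K] (V : ValuationSubring K) {L : Subfield K} (θ : K)

/-- The monic polynomial `ϕ` over `L` of positive degree is a key polynomial for the valuation
`f ↦ |f(θ)|` of polynomials: if `f` and `g` are nonzero polynomials of smaller degree and
`f g = q ϕ + r` with `deg r < deg ϕ`, then `|q(θ) ϕ(θ)| < |f(θ) g(θ)|`. (So `|r(θ)| = |f(θ) g(θ)|`,
and the values of the polynomials of smaller degree define a valuation of `L[X] / (ϕ)`.) -/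
def IsKey (ϕ : L[X]) : Prop :=
  ϕ.Monic ∧ 0 < ϕ.natDegree ∧ ∀ f g : L[X], f.degree < ϕ.degree → g.degree < ϕ.degree →
    f ≠ 0 → g ≠ 0 → V.valuation (aeval θ (f * g /ₘ ϕ * ϕ)) < V.valuation (aeval θ (f * g))

/-- The polynomials of degree less than the degree of `ϕ` have an orthogonal basis over `L` with
respect to the valuation `f ↦ |f(θ)|`. (For a key polynomial `ϕ` this means that the valued field
`L[X] / (ϕ)` is an extension of `L` of degree `e f`. It holds if there are no limit key
polynomials of degree at most `deg ϕ`.) -/
def IsDefectless (ϕ : L[X]) : Prop :=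
  ∃ (n : ℕ) (β : Fin n → L[X]), (∀ i, (β i).degree < ϕ.degree ∧ β i ≠ 0) ∧
    (∀ f : L[X], f.degree < ϕ.degree → ∃ c : Fin n → L, f = ∑ i, C (c i) * β i) ∧
    ∀ (c : Fin n → L) (i : Fin n), V.valuation (aeval θ (C (c i) * β i)) ≤
      V.valuation (aeval θ (∑ j, C (c j) * β j))

/-- The value of `f(θ)` is determined by `ϕ`: in the `ϕ`-adic expansion `f = ∑ f_k ϕ ^ k` with
`deg f_k < deg ϕ` the value of no term at `θ` is greater than the value of `f(θ)`. -/
def IsDetermined (ϕ f : L[X]) : Prop :=
  ∃ (N : ℕ) (d : ℕ → L[X]), (∀ k, (d k).degree < ϕ.degree) ∧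
    f = ∑ k ∈ Finset.range N, d k * ϕ ^ k ∧
    ∀ k < N, V.valuation (aeval θ (d k * ϕ ^ k)) ≤ V.valuation (aeval θ f)

end key

open Polynomial in
/-- The extension `L ⊆ L'` of subfields of `K` is finite and has no defect with respect to the
valuation ring `V` of `K`. That is, for some valuation ring `W` over `V` of some extension field
`M` of `K`, some root `ζ ∈ M` of a monic polynomial `f` over `V ∩ L` with `|f'(ζ)| = 1`, and some
nonzero elements `β i` of `L'`, the field `L'(ζ)` is the sum of the lines `L(ζ) β i`, and the `β
i` are orthogonal over `L(ζ) = L[ζ]`. (The extension `L(ζ) / L` is unramified. If `L^h ⊆ L'^h ⊆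
K^h` are the henselizations for `V` and `[L'^h : L^h] = e f`, then this holds with `M = K^h`,
`L(ζ)` a large finite subextension of `L^h / L`, and with products of `e` elements of `L'` whose
values represent the cosets of the value group and `f` elements of `L'` whose residues form a
basis for the `β i`. For `M = K` and `L(ζ) = L` it is the condition `[L' : L] = e f`.) -/
def IsFiniteWithoutDefect {K : Type u} [Field K] (V : ValuationSubring K) (L L' : Subfield K) :
    Prop :=
  L ≤ L' ∧ ∃ (M : Type u) (_ : Field M) (_ : Algebra K M) (W : ValuationSubring M) (ζ : M)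
    (f : L[X]) (n : ℕ) (β : Fin n → K), W.comap (algebraMap K M) = V ∧ f.Monic ∧
    (∀ i, (f.coeff i : K) ∈ V) ∧ eval₂ ((algebraMap K M).comp L.subtype) ζ f = 0 ∧
    W.valuation (eval₂ ((algebraMap K M).comp L.subtype) ζ (derivative f)) = 1 ∧
    (∀ i, β i ∈ L' ∧ β i ≠ 0) ∧
    (∀ z ∈ L', ∃ c : Fin n → L[X], algebraMap K M z =
      ∑ i, eval₂ ((algebraMap K M).comp L.subtype) ζ (c i) * algebraMap K M (β i)) ∧
    ∀ (c : Fin n → L[X]) (i : Fin n),
      W.valuation (eval₂ ((algebraMap K M).comp L.subtype) ζ (c i) * algebraMap K M (β i)) ≤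
        W.valuation (∑ j, eval₂ ((algebraMap K M).comp L.subtype) ζ (c j) * algebraMap K M (β j))

/-- `V` is the composite of the valuation ring `V₁` and the valuation ring `W` of its residue
field. -/
def IsComposite {K : Type u} [Field K] (V V₁ : ValuationSubring K)
    (W : ValuationSubring (ResidueField V₁)) : Prop :=
  ∀ z : K, z ∈ V ↔ ∃ hz : z ∈ V₁, residue V₁ ⟨z, hz⟩ ∈ W

/-- `V` is discrete of rank `n`: it is the composite of `n` discrete valuation rings. -/
def IsDiscreteOfRank : ℕ → ∀ {K : Type u} [Field K], ValuationSubring K → Prop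
  | 0, _, _, V => V = ⊤
  | n + 1, K, _, V => ∃ (V₁ : ValuationSubring K) (W : ValuationSubring (ResidueField V₁)),
      IsComposite V V₁ W ∧ IsDiscreteValuationRing V₁ ∧ IsDiscreteOfRank n W

/-- The subring `A` of the valuation ring `V` of `F` has the field of fractions `F`. -/
def IsModel {F : Type u} [Field F] (V : ValuationSubring F) (A : Subring F) : Prop :=
  (∀ a ∈ A, a ∈ V) ∧ ∀ z : F, ∃ a ∈ A, ∃ b ∈ A, b ≠ 0 ∧ z = a * b⁻¹

/-- The subfields `L₁` and `L₂` of `K` are linearly disjoint over `k`: elements of `L₁` which are
linearly independent over `k` are linearly independent over `L₂`. -/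
def AreLinearlyDisjoint (k : Type u) {K : Type u} [Field k] [Field K] [Algebra k K]
    (L₁ L₂ : Subfield K) : Prop :=
  ∀ (n : ℕ) (a b : Fin n → K), (∀ i, a i ∈ L₁) → (∀ i, b i ∈ L₂) →
    (∀ c : Fin n → k, ∑ i, c i • a i = 0 → ∀ i, c i = 0) →
    ∑ i, a i * b i = 0 → ∀ i, b i = 0

/-- The valuation is the tensor product of its restrictions to `L₁` and `L₂`: every element `z` of
the ring generated by `L₁` and `L₂` is a sum of products `a j * b j`, `a j ∈ L₁`, `b j ∈ L₂`,
whose values are at most the value of `z`. -/
def IsTensorProduct {K : Type u} [Field K] (V : ValuationSubring K) (L₁ L₂ : Subfield K) : Prop :=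
  ∀ z ∈ Subring.closure ((L₁ : Set K) ∪ L₂), ∃ (n : ℕ) (a b : Fin n → K),
    (∀ j, a j ∈ L₁ ∧ b j ∈ L₂) ∧ z = ∑ j, a j * b j ∧
      ∀ j, V.valuation (a j * b j) ≤ V.valuation z

open Polynomial in
/-- The admissible pairs `(R, L)` of a subring `R` and a subfield `L` of the field `K` over `k` with
the valuation ring `V`. -/
inductive Admissible (k : Type u) {K : Type u} [Field k] [Field K] [Algebra k K]
    (V : ValuationSubring K) : Subring K → Subfield K → Prop
  /-- `R₀` is a noetherian ring which contains `k`, `A₀` is the algebra generated over `R₀` by a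
  finite set `G`, `V ∩ L` contains `A₀`, the field of fractions of `A₀` is `L`, and `A₀` is a Dedekind
  ring or `V ∩ L` is log uniformizable on `Spec A₀`. -/
  | model (L : Subfield K) (R₀ : Subring L) (G : Set L) : IsNoetherianRing R₀ →
    (∀ c : k, ∃ z ∈ R₀, (z : K) = algebraMap k K c) → G.Finite →
    IsModel (V.comap L.subtype) (Subring.closure ((R₀ : Set L) ∪ G)) →
    (IsDedekindDomain (Subring.closure ((R₀ : Set L) ∪ G)) ∨
      IsLogUniformizable (V.comap L.subtype) (Subring.closure ((R₀ : Set L) ∪ G))) →
    Admissible k V (R₀.map L.subtype) L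
  /-- `L` is generated over `k` by a finite set `T` and `V ∩ L` is discrete of rank `n`. -/
  | discrete (L : Subfield K) (T : Set K) (n : ℕ) : T.Finite →
    Subfield.closure (((algebraMap k K).range : Set K) ∪ T) = L →
    IsDiscreteOfRank n (V.comap L.subtype) → Admissible k V (algebraMap k K).range L
  /-- The step from `L` to `L(t)`, where `t` is transcendental and the value of every polynomial in
  `t` is determined by a defectless key polynomial. -/
  | transcendental (R : Subring K) (L : Subfield K) (t : K) : Admissible k V R L →
    Transcendental L t →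
    (∀ f : L[X], ∃ ϕ : L[X], IsKey V t ϕ ∧ IsDefectless V t ϕ ∧ IsDetermined V t ϕ f) →
    Admissible k V R (L ⊔ Subfield.closure {t})
  /-- The step from `L` to a finite extension `L'` without defect. -/
  | finite (R : Subring K) (L L' : Subfield K) : Admissible k V R L →
    IsFiniteWithoutDefect V L L' → Admissible k V R L'
  /-- The compositum of `L₁` and `L₂`. -/
  | compositum (R : Subring K) (L₁ L₂ : Subfield K) : Admissible k V R L₁ →
    Admissible k V (algebraMap k K).range L₂ → AreLinearlyDisjoint k L₁ L₂ →
    IsTensorProduct V L₁ L₂ → Admissible k V R (L₁ ⊔ L₂)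

lemma discrete_eq (n : ℕ) : ∀ {K : Type u} [Field K] (V : ValuationSubring K),
    IsDiscreteOfRank n V → Pool.Agent.X140.CP.IsDiscreteOfRank n V := by
  induction n with
  | zero => exact fun V h => h
  | succ n ih =>
    rintro K _ V ⟨V₁, W, h1, h2, h3⟩
    exact ⟨V₁, W, h1, h2, ih _ h3⟩

/-- `K' = K(ϖ)` with `ϖ ^ N = π`, and `V'` is a valuation ring of `K'` over the valuation ring `V`
of `K`. -/
def IsLift {K K' : Type u} [Field K] [Field K'] [Algebra K K'] (V : ValuationSubring K) (π : K)
    (N : ℕ) (V' : ValuationSubring K') (ϖ : K') : Prop :=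
  V'.comap (algebraMap K K') = V ∧ ϖ ^ N = algebraMap K K' π ∧
    ∀ z : K', z ∈ Subfield.closure (Set.range (algebraMap K K') ∪ {ϖ})

/-- Let `v` be a multiplicative norm with the valuation ring `V` on a field `K` over the field `k`,
trivial on `k`, and let the pair `(R, K)` be admissible. Let `O ⊆ V` be a subring such that `R` and
`O` have a common extension `O[U] = R[T] ⊆ V` of finite type (for example, `O = R = k[[π]]`), and
let `π ≠ 0` be an element of `O` with `|π| < 1` (for example, a uniformizer of the discrete valuation
ring `O`). Suppose that `|π|` is not a `p`-th power in the value group of `v` if `p` is the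
characteristic of `k`. Let `𝒳` be an integral projective `O`-scheme with function field `K` and with
the homogeneous coordinates `W`.

Then there are `d` with `|d| = 1` and `N₀` such that for all `N ≥ N₀` divisible by `d` there are
`K' = K(ϖ)`, `ϖ ^ N = π`, and valuation rings `V'` of `K'` over `V`, and for all such `K'` and `V'`
there is a closed subscheme of the fibre of `𝒳 ⊗ O[ϖ]` over `ϖ = 0` such that the blowing-up in this
subscheme (the main component if `K ⊗ l` is not a field, `l` the field of fractions of `O[ϖ]`) is
semistable at the centre of `V'`. -/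
theorem result {k K : Type u} [Field k] [Field K] [Algebra k K] (v : Valuation K NNReal)
    (hkv : ∀ c : k, v (algebraMap k K c) ≤ 1)
    (R : Subring K) (hR : Admissible k v.valuationSubring R ⊤)
    (O : Subring K) (U T : Set K) (hU : U.Finite) (hT : T.Finite)
    (hOU : ∀ z ∈ Subring.closure ((O : Set K) ∪ U), v z ≤ 1)
    (hOR : Subring.closure ((O : Set K) ∪ U) = Subring.closure ((R : Set K) ∪ T))
    (π : K) (_hπ : π ∈ O) (hπ0 : π ≠ 0) (hπ1 : v π < 1)
    (hdiv : ∀ p : ℕ, p.Prime → v (p : K) < 1 → ∀ z : K, v z ^ p ≠ v π)
    (W : Set K) (hW : W.Finite) (w : K) (hw : w ∈ W) (hw0 : w ≠ 0)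
    (hwV : ∀ z ∈ W, v (z / w) ≤ 1)
    (hWK : ∀ z : K, ∃ a ∈ chart O W w, ∃ b ∈ chart O W w, b ≠ 0 ∧ z = a * b⁻¹) :
    ∃ d N₀ : ℕ, 0 < d ∧ v (d : K) = 1 ∧ ∀ N : ℕ, N₀ ≤ N → d ∣ N →
      (∃ (K' : Type u) (_ : Field K') (_ : Algebra K K') (V' : ValuationSubring K') (ϖ : K'),
        IsLift v.valuationSubring π N V' ϖ) ∧
      ∀ {K' : Type u} [Field K'] [Algebra K K'] (V' : ValuationSubring K') (ϖ : K'),
        IsLift v.valuationSubring π N V' ϖ →
        ∃ Y : Set K',
          IsVerticalCentre (ramifiedRing (algebraMap K K') O ϖ) ϖ (algebraMap K K' '' W) Y ∧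
          IsSemistableAt V' (ramifiedRing (algebraMap K K') O ϖ)
            (blowUpCoordinates (algebraMap K K' '' W) Y) ϖ := by
  set V := v.valuationSubring with hVdef
  have hkV : ∀ c : k, algebraMap k K c ∈ V := hkv
  have kp : ∀ {L : Subfield K} {θ : K} {ϕ : Polynomial L}, IsKey V θ ϕ → IsDefectless V θ ϕ →
      ∃ (n : ℕ) (β : Fin n → Polynomial L), Pool.Agent.H176.DT.KP V θ ϕ β := by
    rintro L θ ϕ ⟨h1, h2, h3⟩ ⟨n, β, h4, h5, h6⟩
    exact ⟨n, β, h1, h2, fun i => (h4 i).1, fun i => (h4 i).2, h5, h6, h3⟩
  have key : ∀ (R : Subring K) (L : Subfield K), Admissible k V R L →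
      IsNoetherianRing R ∧ (∀ c : k, algebraMap k K c ∈ R) ∧
        Pool.Agent.H176.DT.Inv V R L.subtype := by
    intro R L hL
    induction hL with
    | model L R₀ G hN hk hG hM hD =>
      refine ⟨?_, ?_, ?_⟩
      · exact isNoetherianRing_of_surjective R₀ _
          (L.subtype.restrict R₀ (R₀.map L.subtype) fun x hx => ⟨x, hx, rfl⟩) (by
            rintro ⟨_, x, hx, rfl⟩
            exact ⟨⟨x, hx⟩, rfl⟩)
      · intro c
        obtain ⟨z, hz, h⟩ := hk c
        exact ⟨z, hz, h⟩
      · refine Pool.Agent.X140.CP.inv_base V L R₀ G hG ⟨hM.1, hM.2⟩ ?_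
        rcases hD with hD | hD
        · exact logUnif_of_dedekind _ _ hM.1 hM.2
        · exact hD
    | discrete L T n hT hL hV =>
      refine ⟨?_, fun c => ⟨c, rfl⟩, Pool.Agent.X140.CP.inv_discrete V hkV L T hT hL n
        (discrete_eq n _ hV)⟩
      have h3 : IsNoetherianRing k := inferInstance
      exact isNoetherianRing_of_surjective k _ (algebraMap k K).rangeRestrict
        (algebraMap k K).rangeRestrict_surjective
    | transcendental R L t _ ht hdom ih =>
      refine ⟨ih.1, ih.2.1, Pool.Agent.H176.DT.sub_trans V _ t ht (fun f => ?_) ih.2.2⟩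
      obtain ⟨ϕ, h1, h2, N, d, h3, h4, h5⟩ := hdom f
      obtain ⟨n, β, h6⟩ := kp h1 h2
      exact ⟨ϕ, n, β, h6, N, d, ⟨h3, h4⟩, h5⟩
    | finite R L L' _ hnd ih =>
      exact ⟨ih.1, ih.2.1, Pool.Agent.H176.DT.sub_nd V _ hnd.1 hnd.2 ih.2.2⟩
    | compositum R L₁ L₂ _ _ hLD hT ih1 ih2 =>
      have h1 := ih1.1
      exact ⟨ih1.1, ih1.2.1, Pool.Agent.X140.CP.inv_comp V hkV R ih1.2.1 L₁ L₂ ih1.2.2 ih2.2.2
        hLD hT⟩
  obtain ⟨-, -, hI⟩ := key R ⊤ hR
  have hO : ∀ a ∈ O, v a ≤ 1 := fun a ha => hOU a (Subring.subset_closure (Or.inl ha))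
  have hUV : ∀ u ∈ U, u ∈ V := fun a ha => hOU a (Subring.subset_closure (Or.inr ha))
  have hchV : chart O W w ≤ V.toSubring := by
    unfold chart
    rw [Subring.closure_le]
    rintro z (hz | ⟨y, hy, rfl⟩)
    · exact hO z hz
    · exact hwV y hy
  have hMod : Pool.Agent.H176.DT.Mod V (chart O W w) := ⟨hchV, hWK⟩
  have hcl : Subring.closure ((chart O W w : Set K) ∪ U) =
      Subring.closure ((R : Set K) ∪ (T ∪ (fun y => y / w) '' W)) := by
    have e1 : Subring.closure ((chart O W w : Set K) ∪ U) =
        Subring.closure ((Subring.closure ((O : Set K) ∪ U) : Set K) ∪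
          (fun y => y / w) '' W) := by
      apply le_antisymm
      · rw [Subring.closure_le]
        rintro z (hz | hz)
        · refine (?_ : chart O W w ≤ _) hz
          unfold chart
          rw [Subring.closure_le]
          rintro z (hz | ⟨y, hy, rfl⟩)
          · exact Subring.subset_closure (Or.inl (Subring.subset_closure (Or.inl hz)))
          · exact Subring.subset_closure (Or.inr ⟨y, hy, rfl⟩)
        · exact Subring.subset_closure (Or.inl (Subring.subset_closure (Or.inr hz)))
      · rw [Subring.closure_le]
        rintro z (hz | ⟨y, hy, rfl⟩)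
        · refine (?_ : Subring.closure ((O : Set K) ∪ U) ≤ _) hz
          rw [Subring.closure_le]
          rintro z (hz | hz)
          · exact Subring.subset_closure (Or.inl (Subring.subset_closure (Or.inl hz)))
          · exact Subring.subset_closure (Or.inr hz)
        · exact Subring.subset_closure (Or.inl (Subring.subset_closure (Or.inr ⟨y, hy, rfl⟩)))
    rw [e1, hOR]
    apply le_antisymm
    · rw [Subring.closure_le]
      rintro z (hz | hz)
      · refine (?_ : Subring.closure ((R : Set K) ∪ T) ≤ _) hz
        exact Subring.closure_mono (Set.union_subset_union_right _ Set.subset_union_left)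
      · exact Subring.subset_closure (Or.inr (Or.inr hz))
    · rw [Subring.closure_le]
      rintro z (hz | hz | hz)
      · exact Subring.subset_closure (Or.inl (Subring.subset_closure (Or.inl hz)))
      · exact Subring.subset_closure (Or.inl (Subring.subset_closure (Or.inr hz)))
      · exact Subring.subset_closure (Or.inr hz)
  have hle : chart O W w ≤ Subring.closure ((chart O W w : Set K) ∪ U) :=
    fun z hz => Subring.subset_closure (Or.inl hz)
  have hMod2 : Pool.Agent.H176.DT.Mod V (Subring.closure ((chart O W w : Set K) ∪ U)) := by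
    refine ⟨?_, fun z => ?_⟩
    · rw [Subring.closure_le]
      rintro z (hz | hz)
      · exact hchV hz
      · exact hUV z hz
    · obtain ⟨a, ha, b, hb, h⟩ := hWK z
      exact ⟨a, hle ha, b, hle hb, h⟩
  have h1 := Pool.Agent.H176.DT.inv_SU V hI _ (T ∪ (fun y => y / w) '' W)
    (hT.union (hW.image _)) hcl hMod2
  have h2 : Pool.Agent.H176.DT.SU V (chart O W w) :=
    (Pool.Agent.H176.DT.p_move V (chart O W w) hMod _ hU hUV).2 h1
  obtain ⟨d, N₀, hd, hvd, h3⟩ := Pool.Agent.H176.DT.ss_main Pool.Agent.H176.DT.p_et6
    Pool.Agent.H176.DT.p_tor6 Pool.Agent.H176.DT.p_comb6 v O hO hW hw hw0 hwV hMod h2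
    π hπ0 hπ1 hdiv
  refine ⟨d, N₀ + 1, hd, hvd, fun N hN' hdN =>
    ⟨Pool.Agent.H176.DT.exists_root _ _ (by omega), ?_⟩⟩
  have hN : N₀ ≤ N := by omega
  rintro K' _ _ V' ϖ ⟨hV', hϖ, hgen⟩
  obtain ⟨Y, d', n', h4, h5, h6, w', h7, h8, h9, P, h10, h11⟩ := h3 N hN hdN V' ϖ hV' hϖ hgen
  have h12 : ramifiedRing (algebraMap K K') O ϖ = Pool.Agent.H176.DT.Orm O ϖ := rfl
  rw [h12]
  refine ⟨Y, ⟨h4, d', n', h5, h6⟩, w', h7, h8, h9, ?_⟩
  have h13 : centreRing V' (chart (Pool.Agent.H176.DT.Orm O ϖ)
      (blowUpCoordinates (algebraMap K K' '' W) Y) w') = P := h10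
  rw [h13]
  exact h11

end Pool.Agent.Results.MP_1a953e_ag.CompositaPoints
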